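import Pool.Agent.H72.KE.Nlw
import Pool.Agent.H45.JMP.Lst
import Pool.Agent.H91.FR.HtG
import Pool.Agent.H90.ISO.StA

/-!
# The chain of the base at the good windows

`gs_chn`: at a good window of an order the coordinates of the base, in this order, are a full chain
with natural labels; the precisions are the levels of the diagonals. `gs_chG`: the same for a set of
good windows.
-/

set_option autoImplicit false

namespace Pool.PKG

open Finset
open Pool.Agent.H49.Ent Pool.Agent.H32.Dense Pool.STK Pool.KA Pool.KSAT Pool.K2S Pool.PB Pool.GEN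
open Pool.S6C Pool.GRW
open Pool.TOP (TopS)
open Pool.CHT
open Pool.OWN72 (epo cc_epo cc_inj3 gs_exa gs_vs)
open Pool.LA91 (Chn ChG Att Ful FulC)

variable {n : ℕ} {hn : 2 ≤ n} {S : PCl n} {P : ℝ → ℝ → ℝ} {rr : ℝ → ℝ}
  {P' : ℕ → List (Fin n) × Fin n → ℝ → ℝ → ℝ} {Λ : Finset (Fin n) → Fin n → ℝ → ℝ → ℝ}

/-- The levels of the diagonals are the numbers of the closed labels. -/
theorem gs_lvl (H : Pk hn S P rr P' Λ) (hTop : TopS n) (hF : FZX (n - 1)) {o : Od n} {w : ℝ}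
    (hw : w ∈ Gs P rr P' Λ o) {l : ℕ} (hl : l < n - 1) :
    LvL hn P P' o l w w = vs Λ (epo hn o) w (l + 1) := by
  rw [← gs_vs H hTop hF hw hl, LvL_lt o hl]
  unfold dgN
  rw [if_pos hl]
  rfl

/-- **The chain at a good window.** -/
theorem gs_chn (H : Pk hn S P rr P' Λ) (hTop : TopS n) (hF : FZX (n - 1)) {o : Od n} {w : ℝ}
    (hw : w ∈ Gs P rr P' Λ o) {i : ℕ} (hi : i ≤ n - 1) :
    ∃ (u₁ : ℝ) (rd : ℕ → ℝ), (∀ l < i, 0 ≤ rd l) ∧
      Chn S (cc hn o.1.1) 0 i w w u₁ (fun l => LvL hn P P' o l w w) rd := by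
  obtain ⟨α, Q, c, F⟩ := H.fac hTop hF hw
  have hw0 := F.g0
  have hw1 := F.g1
  have hex := gs_exa H hF hw
  have hWv : w ∈ Wv Λ (epo hn o) := hw.1.1
  obtain ⟨-, -, hg, hct⟩ := hWv
  have hth := tht_pos o.2
  have hs0 : ∀ l, w ≤ vs Λ (epo hn o) w l := le_vs H.lam _ hw1.le
  have hlt : ∀ l, l < n - 1 → vs Λ (epo hn o) w (l + 1) < 1 := fun l hl => by
    rw [← gs_lvl H hTop hF hw hl, LvL_lt o hl]
    have h1 := F.le l hl w w hw0 le_rfl F.gα
    have h2 := F.thc
    linarith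
  have hlt' : ∀ l ≤ n - 1, vs Λ (epo hn o) w l < 1 := fun l hl => by
    rcases Nat.eq_zero_or_pos l with rfl | h
    · exact hw1
    · obtain ⟨k, rfl⟩ : ∃ k, l = k + 1 := ⟨l - 1, by omega⟩
      exact hlt k (by omega)
  have hmono := hg.mono H.lam hw1.le
  refine ⟨vs Λ (epo hn o) w i, fun l => vs Λ (epo hn o) w l, fun l _ => hw0.le.trans (hs0 l), ?_⟩
  refine
    { hr := Nat.zero_le _
      inj := (cc_inj3 (hn := hn) o).mono fun x hx => by
        rw [Set.mem_Iio] at hx ⊢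
        omega
      w0 := hw0.le
      wu0 := le_rfl
      u0 := hw1
      wu1 := hs0 i
      u1 := hlt' i hi
      s0 := fun l _ hl => ?_
      r1 := fun l _ hl => hlt' l (by omega)
      att := fun l _ hl => ?_
      base := fun u hu hu1 => ?_
      pre := fun k _ hk => ?_
      ful := fun ρ hρ => ?_ }
  · show 0 ≤ LvL hn P P' o l w w ∧ LvL hn P P' o l w w < 1
    rw [gs_lvl H hTop hF hw (by omega)]
    exact ⟨hw0.le.trans (hs0 _), hlt l (by omega)⟩
  · show Att S ((range l).image (cc hn o.1.1)) (cc hn o.1.1 l) w (LvL hn P P' o l w w)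
      (vs Λ (epo hn o) w l)
    rw [gs_lvl H hTop hF hw (by omega)]
    intro e he
    obtain ⟨K, hK⟩ := vst_att H.lam hw0 hw1 hg hct he
    refine ⟨K, Bas.mono 0 (hK ⟨l, by omega⟩ ⟨l, by omega⟩ le_rfl) ?_⟩
    intro J _ F A h
    have hJ : (0 : ℝ) ≤ J := Nat.cast_nonneg J
    have h2 : (Iio (⟨l, by omega⟩ : Fin (n - 1))).image (epo hn o) =
        (range l).image (cc hn o.1.1) := (img_eq (cc_epo (hn := hn) o) ⟨l, by omega⟩)
    have h3 : epo hn o ⟨l, by omega⟩ = cc hn o.1.1 l := (cc_epo (hn := hn) o ⟨l, by omega⟩).symm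
    rw [h2, h3] at h
    obtain ⟨V, z, z', G, h⟩ := h
    exact ⟨V, z, z', G, h.mono (Finset.Subset.refl _) le_rfl le_rfl
      (Nat.floor_le_floor (mul_le_mul_of_nonneg_right (min_le_left _ _) hJ)) le_rfl⟩
  · intro ρ hρ
    refine Bas.mono 0 H.pos fun J _ F A hA V z z' _ => ?_
    have hJ : (0 : ℝ) ≤ J := Nat.cast_nonneg J
    have h1 : ((range 0).image (cc hn o.1.1)).card = 0 := by simp
    rw [h1, Nat.cast_zero, zero_mul, zero_sub]
    refine le_trans ?_ (CH_nonneg (isLaw_cond F.isLaw hA).nonneg _ _)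
    have := mul_nonneg hρ.le hJ
    linarith
  · exact Pool.JMP45.ful_of H.tmc H.lam (cc_epo (hn := hn) o) hw.1.1 hex (hk.trans hi)
      (hmono hk)
  · refine Bas.mono 0 (vst_crd H.pos H.lam (cc_epo (hn := hn) o) hw0 hw1 hg hct hex hρ)
      fun J _ F A h V z z' hz l _ hl => ?_
    have h1 := h V z z' hz l (by omega)
    show ((1 - LvL hn P P' o l w w) - ρ) * Real.log 2 * J ≤ _
    rw [gs_lvl H hTop hF hw (show l < n - 1 by omega)]
    exact h1

/-- **The chain at all windows of a set of good windows.** -/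
theorem gs_chG (H : Pk hn S P rr P' Λ) (hTop : TopS n) (hF : FZX (n - 1)) {o : Od n} {G : Set ℝ}
    (hG : G ⊆ Gs P rr P' Λ o) {i : ℕ} (hi : i ≤ n - 1) :
    ChG S (cc hn o.1.1) i (fun l w => LvL hn P P' o l w w) G :=
  ⟨fun _ hw => gs_chn H hTop hF (hG hw) hi⟩

end Pool.PKG
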