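import Pool.Agent.H3.D2G.CelQ
import Pool.Agent.H46.D2.NoLb

/-!
# The last arrow

A label of the target on large events at a pair `(a, w)` of real windows has at most the precision
of the level at `(a, w)`: `rat_no` (no better label), `rat_le` (a class with labels), and the same
for the records `RecQ`, `RecL`.
-/

set_option autoImplicit false

namespace Pool.PKG

open Finset Real MvPolynomial
open Pool.Agent.H49.Ent Pool.Agent.H32.Dense Pool.STK Pool.KA Pool.KSAT Pool.K2S Pool.PB Pool.S6C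
open Pool.GEN Pool.CHT
open Pool.LBT (ThrOf)
open Pool.NLB46 (Lab lab_no)

variable {m : ℕ}

/-- The numbers of the thresholds at the rational points above `(a, w)` are at most `X`. -/
def RatN (P : List (Fin m) × Fin m → ℝ → ℝ → ℝ) (c : ℕ → Fin m) (i : ℕ) (a w X : ℝ) : Prop :=
  ∀ e : ℝ, 0 < e → ∃ d : ℝ, 0 < d ∧ ∀ a' w' : ℝ, a ≤ a' → a' ≤ a + d → w ≤ w' → w' ≤ w + d →
    w' ≤ a' → bet P c i a' w' ≤ X + e

/-- **No label above the level** at a pair of real windows. -/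
theorem rat_no {S : PCl m} {P : List (Fin m) × Fin m → ℝ → ℝ → ℝ} {θ : ℝ}
    (hP : ThrOf (chsys m θ) S P) (hθ : 0 < θ) {c : ℕ → Fin m} {i : ℕ} (K C : ℕ)
    {a w X e₂ : ℝ} (hw : 0 ≤ w) (hwa : w ≤ a) (ha : a < 1) (he : e₂ < θ * w) (hX : X < 1)
    (hr : RatN P c i a w X) {gn : ℝ} (hgn : 0 < gn) :
    ∃ δ : ℝ, 0 < δ ∧ Bas S (fun J F A => ∀ (a₀ w₀ e₀ p : ℕ) (Kv g : ℕ → ℕ)
      (G : PtT F → ℕ → MvPolynomial (Option (Fin m)) ℝ)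
      (H : LnT F → ℕ → MvPolynomial (Option (Fin m)) ℝ)
      (Gt : PtT F → MvPolynomial (Option (Fin m)) ℝ)
      (Ht : LnT F → MvPolynomial (Option (Fin m)) ℝ),
      w₀ ≤ a₀ → a₀ ≤ ⌊a * J⌋₊ + C → w₀ ≤ ⌊w * J⌋₊ → e₀ ≤ ⌊e₂ * J⌋₊ → (∀ l, Kv l ≤ K) →
      (∀ l < i, g l ≤ J) → p ≤ J → (X + gn) * J ≤ p →
      ∀ (B : F.Ω → Prop), Sub B A → Real.exp (-(δ * J)) * Pe F.p A ≤ Pe F.p B →
      ChOK F c i Kv a₀ w₀ e₀ g B G H → ¬ Lab F c i K a₀ w₀ e₀ p g G B Gt Ht) := by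
  obtain ⟨h, hh⟩ : ∃ h : ℝ, h = min gn (1 - X) / 2 := ⟨_, rfl⟩
  have hm : 0 < min gn (1 - X) := lt_min hgn (by linarith)
  have hh0 : 0 < h := by rw [hh]; linarith
  have h1 : 2 * h ≤ gn := by rw [hh]; linarith [min_le_left gn (1 - X)]
  have h2 : 2 * h ≤ 1 - X := by rw [hh]; linarith [min_le_right gn (1 - X)]
  obtain ⟨d, hd, hr⟩ := hr h hh0
  obtain ⟨w', hw1, hw2⟩ := exists_rat_btwn (show w < w + min d (1 - a) / 4 by
    have : 0 < min d (1 - a) := lt_min hd (by linarith)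
    linarith)
  obtain ⟨a', ha1, ha2⟩ := exists_rat_btwn (show a + min d (1 - a) / 4 < a + min d (1 - a) / 2 by
    have : 0 < min d (1 - a) := lt_min hd (by linarith)
    linarith)
  have m0 : 0 < min d (1 - a) := lt_min hd (by linarith)
  have m1 := min_le_left d (1 - a)
  have m2 := min_le_right d (1 - a)
  have hb := hr a' w' (by linarith) (by linarith) hw1.le (by linarith) (by linarith)
  have hθw : θ * w ≤ θ * w' := mul_le_mul_of_nonneg_left hw1.le hθ.le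
  obtain ⟨δ, hδ, H0⟩ := lab_no hP c i K a' w' e₂ h (by
    have : (0 : ℝ) ≤ w' := by linarith
    exact_mod_cast this) (by
    have : (w' : ℝ) ≤ a' := by linarith
    exact_mod_cast this) (by
    have : (a' : ℝ) ≤ 1 := by linarith
    exact_mod_cast this) (by linarith) hh0 (by linarith)
  obtain ⟨J₁, hJ₁⟩ := exists_nat_ge (C / (min d (1 - a) / 4))
  refine ⟨δ, hδ, Bas.mono J₁ H0 ?_⟩
  intro J hJ F A hA a₀ w₀ e₀ p Kv g G H Gt Ht k0 k1 k2 k3 k4 k5 k6 k7 B hBA hB hch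
  have hJ0 : (0 : ℝ) ≤ J := Nat.cast_nonneg J
  have hJR : (J₁ : ℝ) ≤ J := by exact_mod_cast hJ
  have hC : (C : ℝ) ≤ min d (1 - a) / 4 * J := by
    have h3 := hJ₁.trans hJR
    rw [div_le_iff₀ (by linarith)] at h3
    linarith
  have k8 : a₀ ≤ ⌊(a' : ℝ) * J⌋₊ := by
    refine k1.trans ?_
    have h4 : ((⌊a * J⌋₊ + C : ℕ) : ℝ) ≤ a' * J := by
      push_cast
      have h5 := Nat.floor_le (show 0 ≤ a * J from mul_nonneg (by linarith) hJ0)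
      have h6 : (a + min d (1 - a) / 4) * J ≤ a' * J := mul_le_mul_of_nonneg_right ha1.le hJ0
      linarith
    exact Nat.le_floor h4
  refine hA a₀ w₀ e₀ p Kv g G H Gt Ht k0 k8
    (k2.trans (Nat.floor_le_floor (mul_le_mul_of_nonneg_right hw1.le hJ0))) k3 k4 k5 k6 ?_ B hBA
    hB hch
  refine Nat.add_le_add ?_ k8
  have h7 : ⌊(bet P c i a' w' + h) * J⌋₊ ≤ ⌊(X + gn) * J⌋₊ :=
    Nat.floor_le_floor (mul_le_mul_of_nonneg_right (by linarith) hJ0)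
  refine h7.trans ?_
  by_contra hcon
  push Not at hcon
  rcases le_or_gt 0 ((X + gn) * (J : ℝ)) with h8 | h8
  · have h9 := Nat.floor_le h8
    have h10 : ((p : ℕ) : ℝ) < (⌊(X + gn) * J⌋₊ : ℕ) := by exact_mod_cast hcon
    linarith
  · rw [Nat.floor_of_nonpos h8.le] at hcon
    exact Nat.not_lt_zero _ hcon

/-- **The depth of labels** of a class is at most the level. -/
theorem rat_le {S : PCl m} (hS : S.Ne) {P : List (Fin m) × Fin m → ℝ → ℝ → ℝ} {θ : ℝ}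
    (hP : ThrOf (chsys m θ) S P) (hθ : 0 < θ) {c : ℕ → Fin m} {i : ℕ} (K C : ℕ)
    {a w X e₂ Y : ℝ} (hw : 0 ≤ w) (hwa : w ≤ a) (ha : a < 1) (he : e₂ < θ * w) (hX : X < 1)
    (hr : RatN P c i a w X)
    (hlab : ∀ δ : ℝ, 0 < δ → Clp S (fun J F A => ∃ (a₀ w₀ e₀ p : ℕ) (Kv g : ℕ → ℕ)
      (G : PtT F → ℕ → MvPolynomial (Option (Fin m)) ℝ)
      (H : LnT F → ℕ → MvPolynomial (Option (Fin m)) ℝ)
      (Gt : PtT F → MvPolynomial (Option (Fin m)) ℝ)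
      (Ht : LnT F → MvPolynomial (Option (Fin m)) ℝ) (B : F.Ω → Prop),
      w₀ ≤ a₀ ∧ a₀ ≤ ⌊a * J⌋₊ + C ∧ w₀ ≤ ⌊w * J⌋₊ ∧ e₀ ≤ ⌊e₂ * J⌋₊ ∧ (∀ l, Kv l ≤ K) ∧
      (∀ l < i, g l ≤ J) ∧ p ≤ J ∧ Y * J ≤ p ∧ Sub B A ∧
      Real.exp (-(δ * J)) * Pe F.p A ≤ Pe F.p B ∧
      ChOK F c i Kv a₀ w₀ e₀ g B G H ∧ Lab F c i K a₀ w₀ e₀ p g G B Gt Ht)) : Y ≤ X := by
  by_contra hcon
  push Not at hcon
  obtain ⟨δ, hδ, hno⟩ := rat_no hP hθ K C hw hwa ha he hX hr (gn := Y - X) (by linarith)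
  refine Clp.not_false hS (Clp.mono (J₂ := 0) (Clp.and (hlab δ hδ) hno.clp) ?_)
  rintro J - F A ⟨⟨a₀, w₀, e₀, p, Kv, g, G, H, Gt, Ht, B, k0, k1, k2, k3, k4, k5, k6, k7, k8, k9,
    k10, k11⟩, hA⟩
  refine hA a₀ w₀ e₀ p Kv g G H Gt Ht k0 k1 k2 k3 k4 k5 k6 ?_ B k8 k9 k10 k11
  have e1 : X + (Y - X) = Y := by ring
  rw [e1]
  exact k7

section

variable {S : PCl m} {P P₂ : List (Fin m) × Fin m → ℝ → ℝ → ℝ} {θ θ₂ : ℝ}
  {c : ℕ → Fin m} {i : ℕ} {Pt : ℝ → ℝ → ℝ} {L T : ℕ → ℝ → ℝ → ℝ} {Sl : ℕ → ℝ} {κ : ℕ → Kd}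
  {S₀ N : ℕ} {A V : ℕ → ℝ} {S₂ N' : ℕ} {V' : ℕ → ℝ} {Eb e₂ K ε q t : ℝ}

theorem RecQ.ratN (R : RecQ S P P₂ θ θ₂ c i Pt L T Sl κ S₀ N A V S₂ N' V' Eb e₂ K ε q t) {k : ℕ}
    (hk : k < N) : RatN P₂ c i (t + A k * q) (t + V k * q) (L i (t + A k * q) (t + V k * q)) :=
  fun e he => by
    obtain ⟨d, hd, h⟩ := R.rat k hk e he
    exact ⟨d, hd, fun a' w' h1 h2 h3 h4 h5 => (h a' w' h1 h2 h3 h4 h5).1⟩

/-- The numbers of a pair of the record. -/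
theorem RecQ.nums (R : RecQ S P P₂ θ θ₂ c i Pt L T Sl κ S₀ N A V S₂ N' V' Eb e₂ K ε q t) {k : ℕ}
    (h1 : -K ≤ V k) (h2 : V k ≤ A k) (h3 : A k ≤ K) : 0 ≤ t + V k * q ∧
      t + V k * q ≤ t + A k * q ∧ t + A k * q < 1 ∧ e₂ < θ₂ * (t + V k * q) ∧
      L i (t + A k * q) (t + V k * q) < 1 := by
  have hq := R.q0
  have a1 : -(K * q) ≤ V k * q := by
    have := mul_le_mul_of_nonneg_right h1 hq.le
    linarith
  have a2 : V k * q ≤ A k * q := mul_le_mul_of_nonneg_right h2 hq.le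
  have a3 : A k * q ≤ K * q := mul_le_mul_of_nonneg_right h3 hq.le
  have t0 := R.t0
  have t1 := R.t1
  have b1 : |t + V k * q - t| ≤ K * q := by
    rw [abs_le]
    constructor <;> linarith
  have b2 : |t + A k * q - t| ≤ K * q := by
    rw [abs_le]
    constructor <;> linarith
  have c1 := R.room i le_rfl _ b2
  have c2 := (R.lawL i le_rfl).mono_w (t + A k * q) (t + V k * q) (t + A k * q) (by linarith)
    (by linarith) le_rfl (by linarith)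
  have c3 := R.Eb0
  exact ⟨by linarith, by linarith, by linarith, R.e₂θ _ b1, by linarith⟩

/-- **No label of the target above the level** at a pair of the record. -/
theorem RecQ.no (R : RecQ S P P₂ θ θ₂ c i Pt L T Sl κ S₀ N A V S₂ N' V' Eb e₂ K ε q t) {k : ℕ}
    (hk : k < N) (h1 : -K ≤ V k) (h2 : V k ≤ A k) (h3 : A k ≤ K) (Kd C : ℕ) {gn : ℝ}
    (hgn : 0 < gn) : ∃ δ : ℝ, 0 < δ ∧ Bas S (fun J F A' => ∀ (a₀ w₀ e₀ p : ℕ) (Kv g : ℕ → ℕ)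
      (G : PtT F → ℕ → MvPolynomial (Option (Fin m)) ℝ)
      (H : LnT F → ℕ → MvPolynomial (Option (Fin m)) ℝ)
      (Gt : PtT F → MvPolynomial (Option (Fin m)) ℝ)
      (Ht : LnT F → MvPolynomial (Option (Fin m)) ℝ),
      w₀ ≤ a₀ → a₀ ≤ ⌊(t + A k * q) * J⌋₊ + C → w₀ ≤ ⌊(t + V k * q) * J⌋₊ → e₀ ≤ ⌊e₂ * J⌋₊ →
      (∀ l, Kv l ≤ Kd) → (∀ l < i, g l ≤ J) → p ≤ J →
      (L i (t + A k * q) (t + V k * q) + gn) * J ≤ p →
      ∀ (B : F.Ω → Prop), Sub B A' → Real.exp (-(δ * J)) * Pe F.p A' ≤ Pe F.p B →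
      ChOK F c i Kv a₀ w₀ e₀ g B G H → ¬ Lab F c i Kd a₀ w₀ e₀ p g G B Gt Ht) := by
  obtain ⟨n1, n2, n3, n4, n5⟩ := R.nums h1 h2 h3
  exact rat_no R.thr₂ R.th₂0 Kd C n1 n2 n3 n4 n5 (R.ratN hk) hgn

/-- **The depth of labels of the target** is at most the level, at a pair of the record. -/
theorem RecQ.le (R : RecQ S P P₂ θ θ₂ c i Pt L T Sl κ S₀ N A V S₂ N' V' Eb e₂ K ε q t) {k : ℕ}
    (hk : k < N) (h1 : -K ≤ V k) (h2 : V k ≤ A k) (h3 : A k ≤ K) (Kd C : ℕ) {Y : ℝ}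
    (hlab : ∀ δ : ℝ, 0 < δ → Clp S (fun J F A' => ∃ (a₀ w₀ e₀ p : ℕ) (Kv g : ℕ → ℕ)
      (G : PtT F → ℕ → MvPolynomial (Option (Fin m)) ℝ)
      (H : LnT F → ℕ → MvPolynomial (Option (Fin m)) ℝ)
      (Gt : PtT F → MvPolynomial (Option (Fin m)) ℝ)
      (Ht : LnT F → MvPolynomial (Option (Fin m)) ℝ) (B : F.Ω → Prop),
      w₀ ≤ a₀ ∧ a₀ ≤ ⌊(t + A k * q) * J⌋₊ + C ∧ w₀ ≤ ⌊(t + V k * q) * J⌋₊ ∧ e₀ ≤ ⌊e₂ * J⌋₊ ∧
      (∀ l, Kv l ≤ Kd) ∧ (∀ l < i, g l ≤ J) ∧ p ≤ J ∧ Y * J ≤ p ∧ Sub B A' ∧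
      Real.exp (-(δ * J)) * Pe F.p A' ≤ Pe F.p B ∧
      ChOK F c i Kv a₀ w₀ e₀ g B G H ∧ Lab F c i Kd a₀ w₀ e₀ p g G B Gt Ht)) :
    Y ≤ L i (t + A k * q) (t + V k * q) := by
  obtain ⟨n1, n2, n3, n4, n5⟩ := R.nums h1 h2 h3
  exact rat_le R.ne R.thr₂ R.th₂0 Kd C n1 n2 n3 n4 n5 (R.ratN hk) hlab

end

end Pool.PKG
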